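import Pool.Agent.W187.WP.Stmts

open MeasureTheory Set Filter Topology intervalIntegral
open Pool.Agent.W187.WP

namespace Pool.Agent.W449.WP

/-- the difference quotient kernel -/
noncomputable def ker (f h : ℝ → ℝ) (x y : ℝ) : ℝ := (f y - f x) * (h y - h x) / (y - x)

/-- polarised energy -/
noncomputable def BE (f h : ℝ → ℝ) : ℝ := ∫ x in (-1 : ℝ)..1, ∫ y in x..1, ker f h x y

theorem EE_eq (w : ℝ → ℝ) : EE w = BE w w := by
  unfold EE BE ker
  simp only [sq]

theorem BE_comm (f h : ℝ → ℝ) : BE f h = BE h f := by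
  unfold BE ker
  simp only [mul_comm]

theorem ker_cont {f h : ℝ → ℝ} (hf : ContDiff ℝ 1 f) (hh : ContDiff ℝ 1 h) :
    Continuous (Function.uncurry (ker f h)) := by
  rw [continuous_iff_continuousAt]
  rintro ⟨x, y⟩
  by_cases hxy : y = x
  · subst hxy
    obtain ⟨K, s, hs, hK⟩ := (hf.contDiffAt (x := y)).exists_lipschitzOnWith
    obtain ⟨K', s', hs', hK'⟩ := (hh.contDiffAt (x := y)).exists_lipschitzOnWith
    have h0 : Function.uncurry (ker f h) (y, y) = 0 := by simp [Function.uncurry, ker]
    rw [ContinuousAt, h0]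
    have hlim : Tendsto (fun p : ℝ × ℝ => (K : ℝ) * K' * |p.2 - p.1|) (𝓝 (y, y)) (𝓝 0) := by
      have : Continuous (fun p : ℝ × ℝ => (K : ℝ) * K' * |p.2 - p.1|) := by fun_prop
      have h2 := this.tendsto (y, y)
      simpa using h2
    refine squeeze_zero_norm' ?_ hlim
    have hev : ∀ᶠ p : ℝ × ℝ in 𝓝 (y, y), p.1 ∈ s ∩ s' ∧ p.2 ∈ s ∩ s' := by
      rw [nhds_prod_eq]
      exact (Filter.Eventually.prod_mk (Filter.inter_mem hs hs') (Filter.inter_mem hs hs'))
    filter_upwards [hev] with p hp
    obtain ⟨⟨h1, h1'⟩, h2, h2'⟩ := hp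
    have e1 := hK.dist_le_mul _ h2 _ h1
    have e2 := hK'.dist_le_mul _ h2' _ h1'
    rw [Real.dist_eq, Real.dist_eq] at e1 e2
    show ‖(f p.2 - f p.1) * (h p.2 - h p.1) / (p.2 - p.1)‖ ≤ _
    rw [Real.norm_eq_abs, abs_div, abs_mul]
    by_cases hp0 : p.2 - p.1 = 0
    · simp [hp0]
    · rw [div_le_iff₀ (abs_pos.mpr hp0)]
      calc |f p.2 - f p.1| * |h p.2 - h p.1| ≤ (K * |p.2 - p.1|) * (K' * |p.2 - p.1|) := by
            gcongr
        _ = _ := by ring
  · have hne : (fun p : ℝ × ℝ => p.2 - p.1) (x, y) ≠ 0 := by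
      simpa [sub_eq_zero] using hxy
    have h1 : Continuous f := hf.continuous
    have h2 : Continuous h := hh.continuous
    refine ContinuousAt.div ?_ ?_ hne
    · exact Continuous.continuousAt (by fun_prop)
    · exact Continuous.continuousAt (by fun_prop)

theorem inner_cont {f h : ℝ → ℝ} (hf : ContDiff ℝ 1 f) (hh : ContDiff ℝ 1 h) :
    Continuous (fun x => ∫ y in x..1, ker f h x y) := by
  have h1 : (fun x => ∫ y in x..1, ker f h x y) = fun x => - ∫ y in (1:ℝ)..x, ker f h x y := by
    ext x
    rw [intervalIntegral.integral_symm]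
  rw [h1]
  exact (intervalIntegral.continuous_parametric_intervalIntegral_of_continuous (ker_cont hf hh)
    continuous_id).neg

theorem ker_int {f h : ℝ → ℝ} (hf : ContDiff ℝ 1 f) (hh : ContDiff ℝ 1 h) (x a b : ℝ) :
    IntervalIntegrable (ker f h x) volume a b := by
  have h1 : Continuous (ker f h x) := by
    have := (ker_cont hf hh)
    exact this.comp (Continuous.prodMk_right x)
  exact h1.intervalIntegrable _ _

theorem inner_int {f h : ℝ → ℝ} (hf : ContDiff ℝ 1 f) (hh : ContDiff ℝ 1 h) (a b : ℝ) :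
    IntervalIntegrable (fun x => ∫ y in x..1, ker f h x y) volume a b :=
  (inner_cont hf hh).intervalIntegrable _ _

theorem BE_add {f g h : ℝ → ℝ} (hf : ContDiff ℝ 1 f) (hg : ContDiff ℝ 1 g)
    (hh : ContDiff ℝ 1 h) : BE (fun x => f x + g x) h = BE f h + BE g h := by
  unfold BE
  rw [← intervalIntegral.integral_add (inner_int hf hh _ _) (inner_int hg hh _ _)]
  congr 1
  ext x
  rw [← intervalIntegral.integral_add (ker_int hf hh _ _ _) (ker_int hg hh _ _ _)]
  congr 1
  ext y
  unfold ker
  ring

theorem BE_smul (c : ℝ) (f h : ℝ → ℝ) : BE (fun x => c * f x) h = c * BE f h := by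
  unfold BE
  rw [← intervalIntegral.integral_const_mul]
  congr 1
  ext x
  rw [← intervalIntegral.integral_const_mul]
  congr 1
  ext y
  unfold ker
  ring

theorem BE_sum {ι : Type*} (s : Finset ι) (a : ι → ℝ) (f : ι → ℝ → ℝ) {h : ℝ → ℝ}
    (hf : ∀ i, ContDiff ℝ 1 (f i)) (hh : ContDiff ℝ 1 h) :
    BE (fun x => ∑ i ∈ s, a i * f i x) h = ∑ i ∈ s, a i * BE (f i) h := by
  classical
  induction s using Finset.induction_on with
  | empty => simp [BE, ker]
  | insert i s hi ih =>
    rw [Finset.sum_insert hi, ← ih, ← BE_smul]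
    rw [← BE_add (contDiff_const.mul (hf i)) (ContDiff.sum fun j _ => contDiff_const.mul (hf j)) hh]
    congr 1
    ext x
    rw [Finset.sum_insert hi]


open Polynomial in
/-- inner product on `[-1, 1]` -/
noncomputable def ip (f g : ℝ → ℝ) : ℝ := ∫ x in (-1 : ℝ)..1, f x * g x

theorem ip_comm (f g : ℝ → ℝ) : ip f g = ip g f := by
  unfold ip
  simp only [mul_comm]

theorem ip_add {f g h : ℝ → ℝ} (hf : Continuous f) (hg : Continuous g) (hh : Continuous h) :
    ip (fun x => f x + g x) h = ip f h + ip g h := by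
  unfold ip
  have h1 : IntervalIntegrable (fun x => f x * h x) volume (-1) 1 :=
    (hf.mul hh).intervalIntegrable _ _
  have h2 : IntervalIntegrable (fun x => g x * h x) volume (-1) 1 :=
    (hg.mul hh).intervalIntegrable _ _
  rw [← intervalIntegral.integral_add h1 h2]
  congr 1
  ext x
  ring

theorem ip_sub {f g h : ℝ → ℝ} (hf : Continuous f) (hg : Continuous g) (hh : Continuous h) :
    ip (fun x => f x - g x) h = ip f h - ip g h := by
  unfold ip
  have h1 : IntervalIntegrable (fun x => f x * h x) volume (-1) 1 :=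
    (hf.mul hh).intervalIntegrable _ _
  have h2 : IntervalIntegrable (fun x => g x * h x) volume (-1) 1 :=
    (hg.mul hh).intervalIntegrable _ _
  rw [← intervalIntegral.integral_sub h1 h2]
  congr 1
  ext x
  ring

theorem ip_smul (c : ℝ) (f h : ℝ → ℝ) : ip (fun x => c * f x) h = c * ip f h := by
  unfold ip
  rw [← intervalIntegral.integral_const_mul]
  congr 1
  ext x
  ring

theorem ip_sum {ι : Type*} (s : Finset ι) (a : ι → ℝ) (f : ι → ℝ → ℝ) {h : ℝ → ℝ}
    (hf : ∀ i, Continuous (f i)) (hh : Continuous h) :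
    ip (fun x => ∑ i ∈ s, a i * f i x) h = ∑ i ∈ s, a i * ip (f i) h := by
  classical
  induction s using Finset.induction_on with
  | empty => simp [ip]
  | insert i s hi ih =>
    rw [Finset.sum_insert hi, ← ih, ← ip_smul]
    have h1 : Continuous (fun x => a i * f i x) := continuous_const.mul (hf i)
    have h2 : Continuous (fun x => ∑ j ∈ s, a j * f j x) :=
      continuous_finsetSum _ fun j _ => continuous_const.mul (hf j)
    rw [← ip_add h1 h2 hh]
    congr 1
    ext x
    rw [Finset.sum_insert hi]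

theorem eval_fun (p : Polynomial ℝ) (N : ℕ) (hp : p.degree < N) :
    (fun x => p.eval x) = fun x => ∑ i ∈ Finset.range N, p.coeff i * x ^ i := by
  ext x
  by_cases h0 : p = 0
  · simp [h0]
  · exact Polynomial.eval_eq_sum_range' ((Polynomial.natDegree_lt_iff_degree_lt h0).mpr hp) x

/-- orthogonality to monomials gives orthogonality to polynomials -/
theorem ip_poly_zero (p : Polynomial ℝ) (N : ℕ) (hp : p.degree < N) (e : ℝ → ℝ)
    (he : Continuous e) (ho : ∀ k < N, ip (fun x => x ^ k) e = 0) :
    ip (fun x => p.eval x) e = 0 := by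
  rw [eval_fun p N hp, ip_sum _ _ _ (fun i => continuous_pow i) he]
  exact Finset.sum_eq_zero fun k hk => by rw [ho k (Finset.mem_range.mp hk), mul_zero]

theorem ip_self_pos (p : Polynomial ℝ) (hp : p ≠ 0) :
    0 < ip (fun x => p.eval x) (fun x => p.eval x) := by
  unfold ip
  have hc : Continuous (fun x => p.eval x * p.eval x) := p.continuous.mul p.continuous
  refine intervalIntegral.integral_pos (by norm_num) hc.continuousOn
    (fun x _ => mul_self_nonneg _) ?_
  by_contra hcon
  push Not at hcon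
  have hz : ∀ x ∈ Icc (-1 : ℝ) 1, p.eval x = 0 := by
    intro x hx
    have h1 := hcon x hx
    have h2 := mul_self_nonneg (p.eval x)
    exact mul_self_eq_zero.mp (le_antisymm h1 h2)
  have hinf : Set.Infinite {x | p.IsRoot x} :=
    (Set.Icc_infinite (by norm_num : (-1 : ℝ) < 1)).mono fun x hx => hz x hx
  exact hp (Polynomial.eq_zero_of_infinite_isRoot p hinf)

theorem ip_self_nonneg (f : ℝ → ℝ) : 0 ≤ ip f f := by
  unfold ip
  exact intervalIntegral.integral_nonneg (by norm_num) fun x _ => mul_self_nonneg _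

theorem deg_sum (N : ℕ) (a : Fin N → ℝ) :
    (∑ i : Fin N, Polynomial.monomial (i : ℕ) (a i)).degree < N := by
  refine Polynomial.mem_degreeLT.mp (Submodule.sum_mem _ fun i _ => ?_)
  rw [Polynomial.mem_degreeLT]
  exact lt_of_le_of_lt (Polynomial.degree_monomial_le _ _) (by exact_mod_cast i.2)

/-- the moment map is surjective on polynomials of small degree -/
theorem exists_moments (N : ℕ) (b : Fin N → ℝ) : ∃ p : Polynomial ℝ, p.degree < N ∧
    ∀ k : Fin N, ip (fun x => p.eval x) (fun x => x ^ (k : ℕ)) = b k := by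
  classical
  let L : (Fin N → ℝ) →ₗ[ℝ] (Fin N → ℝ) :=
    { toFun := fun a k => ip (fun x => ∑ i : Fin N, a i * x ^ (i : ℕ)) (fun x => x ^ (k : ℕ))
      map_add' := by
        intro a b
        ext k
        simp only [Pi.add_apply]
        rw [← ip_add (by fun_prop) (by fun_prop) (by fun_prop)]
        congr 1
        ext x
        rw [← Finset.sum_add_distrib]
        exact Finset.sum_congr rfl fun i _ => by ring
      map_smul' := by
        intro c a
        ext k
        simp only [Pi.smul_apply, smul_eq_mul, RingHom.id_apply]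
        rw [← ip_smul]
        congr 1
        ext x
        rw [Finset.mul_sum]
        exact Finset.sum_congr rfl fun i _ => by ring }
  have hinj : Function.Injective L := by
    rw [injective_iff_map_eq_zero]
    intro a ha
    set p : Polynomial ℝ := ∑ i : Fin N, Polynomial.monomial (i : ℕ) (a i) with hp
    have hev : (fun x => p.eval x) = fun x => ∑ i : Fin N, a i * x ^ (i : ℕ) := by
      ext x
      rw [hp, Polynomial.eval_finsetSum]
      simp [Polynomial.eval_monomial]
    have hcoef : ∀ i : Fin N, p.coeff i = a i := by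
      intro i
      rw [hp, Polynomial.finsetSum_coeff]
      simp [Polynomial.coeff_monomial, Fin.val_inj]
    have hdeg : p.degree < N := by
      rw [hp]
      exact deg_sum N a
    have h0 : ip (fun x => p.eval x) (fun x => p.eval x) = 0 := by
      refine ip_poly_zero p N hdeg _ p.continuous ?_
      intro k hk
      rw [ip_comm, hev]
      exact congrFun ha ⟨k, hk⟩
    by_contra hne
    have hpne : p ≠ 0 := by
      intro hp0
      apply hne
      ext i
      rw [← hcoef i, hp0]
      simp
    exact (ip_self_pos p hpne).ne' h0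
  have hsurj : Function.Surjective L := LinearMap.injective_iff_surjective.mp hinj
  obtain ⟨a, ha⟩ := hsurj b
  refine ⟨∑ i : Fin N, Polynomial.monomial (i : ℕ) (a i), ?_, ?_⟩
  · exact deg_sum N a
  · intro k
    rw [← ha]
    show _ = ip (fun x => ∑ i : Fin N, a i * x ^ (i : ℕ)) (fun x => x ^ (k : ℕ))
    congr 1
    ext x
    rw [Polynomial.eval_finsetSum]
    simp [Polynomial.eval_monomial]


/-- harmonic number -/
noncomputable def HH (n : ℕ) : ℝ := ∑ i ∈ Finset.range n, (1 : ℝ) / (i + 1)

theorem HH_mono {m n : ℕ} (h : m ≤ n) : HH m ≤ HH n := by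
  unfold HH
  exact Finset.sum_le_sum_of_subset_of_nonneg (Finset.range_mono h) fun i _ _ => by positivity

theorem HH_nonneg (n : ℕ) : 0 ≤ HH n := by
  unfold HH
  positivity

theorem ip_TT (n : ℕ) (e : ℝ → ℝ) (he : Continuous e)
    (ho : ∀ k < n, ip (fun x => x ^ k) e = 0) :
    ∫ x in (-1 : ℝ)..1, e x * TT n x = 2 * HH n * ip (fun x => x ^ n) e := by
  have h1 : ∫ x in (-1 : ℝ)..1, e x * TT n x = ip (TT n) e := by
    rw [ip_comm]
    rfl
  have h2 : TT n = fun x => (2 * HH n * x ^ n) -
      ∑ j ∈ Finset.range n, (if Even (n - j) then 2 / ((n : ℝ) - j) else 0) * x ^ j := by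
    ext x
    unfold TT HH
    congr 1
    refine Finset.sum_congr rfl fun j _ => ?_
    split_ifs <;> simp
  rw [h1, h2, ip_sub (by fun_prop) (by fun_prop) he, ip_smul,
    ip_sum _ _ _ (fun i => continuous_pow i) he]
  rw [Finset.sum_eq_zero, sub_zero]
  intro k hk
  rw [ho k (Finset.mem_range.mp hk), mul_zero]

theorem poly_cd (p : Polynomial ℝ) : ContDiff ℝ 1 (fun x => p.eval x) := by
  have h := Polynomial.contDiff_aeval (𝕜 := ℝ) p 1
  simpa [Polynomial.coe_aeval_eq_eval] using h

theorem ip_expand {f g : ℝ → ℝ} (a : ℝ) (hf : Continuous f) (hg : Continuous g) :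
    ip (fun x => f x + a * g x) (fun x => f x + a * g x) =
      ip f f + 2 * a * ip f g + a ^ 2 * ip g g := by
  have h1 : Continuous fun x => a * g x := continuous_const.mul hg
  have h2 : Continuous fun x => f x + a * g x := hf.add h1
  rw [ip_add hf h1 h2, ip_smul, ip_comm f, ip_add hf h1 hf, ip_smul, ip_comm g f,
    ip_comm g, ip_add hf h1 hg, ip_smul]
  ring

theorem BE_expand {f g : ℝ → ℝ} (a : ℝ) (hf : ContDiff ℝ 1 f) (hg : ContDiff ℝ 1 g) :
    BE (fun x => f x + a * g x) (fun x => f x + a * g x) =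
      BE f f + 2 * a * BE f g + a ^ 2 * BE g g := by
  have h1 : ContDiff ℝ 1 fun x => a * g x := contDiff_const.mul hg
  have h2 : ContDiff ℝ 1 fun x => f x + a * g x := hf.add h1
  rw [BE_add hf h1 h2, BE_smul, BE_comm f, BE_add hf h1 hf, BE_smul, BE_comm g f,
    BE_comm g, BE_add hf h1 hg, BE_smul]
  ring

theorem BE_pow (hTX : S_TX) (n : ℕ) (e : ℝ → ℝ) (he : ContDiff ℝ 1 e)
    (ho : ∀ k < n, ip (fun x => x ^ k) e = 0) :
    BE (fun x => x ^ n) e = 2 * HH n * ip (fun x => x ^ n) e := by
  rw [← ip_TT n e he.continuous ho, ← hTX n e he]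
  rfl

theorem BE_poly_zero (hTX : S_TX) (p : Polynomial ℝ) (N : ℕ) (hp : p.degree < N) (e : ℝ → ℝ)
    (he : ContDiff ℝ 1 e) (ho : ∀ k < N, ip (fun x => x ^ k) e = 0) :
    BE (fun x => p.eval x) e = 0 := by
  rw [eval_fun p N hp, BE_sum (Finset.range N) p.coeff (fun i x => x ^ i)
    (fun i => contDiff_id.pow i) he]
  refine Finset.sum_eq_zero fun k hk => ?_
  have hk' := Finset.mem_range.mp hk
  have h := BE_pow hTX k e he fun j hj => ho j (hj.trans hk')
  rw [h, ho k hk', mul_zero, mul_zero]

theorem BE_self_nonneg (f : ℝ → ℝ) : 0 ≤ BE f f := by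
  unfold BE
  refine intervalIntegral.integral_nonneg (by norm_num) fun x hx => ?_
  refine intervalIntegral.integral_nonneg hx.2 fun y hy => ?_
  unfold ker
  exact div_nonneg (mul_self_nonneg _) (sub_nonneg.mpr hy.1)

/-- monic orthogonal polynomials -/
theorem exists_e (N : ℕ) : ∃ r : Polynomial ℝ, r.degree < N ∧
    ∀ k < N, ip (fun x => x ^ k) (fun x => (Polynomial.X ^ N - r).eval x) = 0 := by
  obtain ⟨r, hr, h⟩ := exists_moments N fun k => ip (fun x => x ^ N) (fun x => x ^ (k : ℕ))
  refine ⟨r, hr, fun k hk => ?_⟩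
  rw [ip_comm]
  have h1 : (fun x : ℝ => (Polynomial.X ^ N - r).eval x) = fun x => x ^ N - r.eval x := by
    ext x
    simp
  rw [h1, ip_sub (continuous_pow N) r.continuous (continuous_pow k)]
  have := h ⟨k, hk⟩
  simp only at this
  rw [this, sub_self]

theorem poly_bound (hTX : S_TX) (K : ℕ) : ∀ (N : ℕ) (q : Polynomial ℝ), q.degree < N →
    (∀ k < K + 1, ip (fun x => x ^ k) (fun x => q.eval x) = 0) →
    2 * HH (K + 1) * ip (fun x => q.eval x) (fun x => q.eval x) ≤
      BE (fun x => q.eval x) (fun x => q.eval x) := by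
  intro N
  induction N with
  | zero =>
    intro q hq _
    have hq0 : q = 0 := by
      by_contra h
      have := Polynomial.zero_le_degree_iff.mpr h
      exact absurd hq (not_lt.mpr (by simpa using this))
    subst hq0
    simp [ip, BE, ker]
  | succ N ih =>
    intro q hq ho
    by_cases hN : N < K + 1
    · have h0 : ip (fun x => q.eval x) (fun x => q.eval x) = 0 := by
        refine ip_poly_zero q (K + 1) (lt_of_lt_of_le hq ?_) _ q.continuous ho
        exact_mod_cast hN
      rw [h0, mul_zero]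
      exact BE_self_nonneg _
    · push Not at hN
      obtain ⟨r, hr, her⟩ := exists_e N
      set e : Polynomial ℝ := Polynomial.X ^ N - r with he
      set a : ℝ := q.coeff N with ha
      set q' : Polynomial ℝ := q - Polynomial.C a * e with hq'
      have hcoefe : e.coeff N = 1 := by
        rw [he, Polynomial.coeff_sub, Polynomial.coeff_X_pow_self,
          Polynomial.coeff_eq_zero_of_degree_lt hr, sub_zero]
      have hdege : e.degree < (N + 1 : ℕ) := by
        rw [he]
        refine lt_of_le_of_lt (Polynomial.degree_sub_le _ _) (max_lt ?_ ?_)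
        · rw [Polynomial.degree_X_pow]
          exact_mod_cast Nat.lt_succ_self N
        · exact hr.trans (by exact_mod_cast Nat.lt_succ_self N)
      have hdeg' : q'.degree < N := by
        rw [Polynomial.degree_lt_iff_coeff_zero]
        intro m hm
        rcases Nat.eq_or_lt_of_le hm with hm | hm
        · subst hm
          rw [hq', Polynomial.coeff_sub, Polynomial.coeff_C_mul, hcoefe, ha]
          ring
        · have h1 : q.coeff m = 0 := Polynomial.coeff_eq_zero_of_degree_lt
            (lt_of_lt_of_le hq (by exact_mod_cast hm))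
          have h2 : e.coeff m = 0 := Polynomial.coeff_eq_zero_of_degree_lt
            (lt_of_lt_of_le hdege (by exact_mod_cast hm))
          rw [hq', Polynomial.coeff_sub, Polynomial.coeff_C_mul, h1, h2]
          ring
      have hq'f : (fun x => q'.eval x) = fun x => q.eval x - a * e.eval x := by
        ext x
        rw [hq']
        simp
      have ho' : ∀ k < K + 1, ip (fun x => x ^ k) (fun x => q'.eval x) = 0 := by
        intro k hk
        have hae : Continuous fun x => a * e.eval x := continuous_const.mul e.continuous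
        rw [ip_comm, hq'f, ip_sub q.continuous hae (continuous_pow k), ip_smul, ip_comm, ho k hk,
          ip_comm, her k (lt_of_lt_of_le hk hN)]
        ring
      have hih := ih q' hdeg' ho'
      have hqf : (fun x => q.eval x) = fun x => q'.eval x + a * e.eval x := by
        ext x
        rw [hq']
        simp
      have hce : Continuous fun x => a * e.eval x := continuous_const.mul e.continuous
      have hde : ContDiff ℝ 1 fun x => a * e.eval x := contDiff_const.mul (poly_cd e)
      have hqe : ip (fun x => q'.eval x) (fun x => e.eval x) = 0 :=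
        ip_poly_zero q' N hdeg' _ e.continuous her
      have hBqe : BE (fun x => q'.eval x) (fun x => e.eval x) = 0 :=
        BE_poly_zero hTX q' N hdeg' _ (poly_cd e) her
      have hXe : (fun x => e.eval x) = fun x : ℝ => x ^ N + (-1) * r.eval x := by
        ext x
        rw [he]
        simp
        ring
      have hre : ip (fun x => r.eval x) (fun x => e.eval x) = 0 :=
        ip_poly_zero r N hr _ e.continuous her
      have hBre : BE (fun x => r.eval x) (fun x => e.eval x) = 0 :=
        BE_poly_zero hTX r N hr _ (poly_cd e) her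
      have hee : ip (fun x => e.eval x) (fun x => e.eval x) =
          ip (fun x => x ^ N) (fun x => e.eval x) := by
        have hc : Continuous fun x => (-1) * r.eval x := continuous_const.mul r.continuous
        have := ip_add (continuous_pow N) hc e.continuous
        rw [ip_smul, hre, mul_zero, add_zero, ← hXe] at this
        exact this
      have hBee : BE (fun x => e.eval x) (fun x => e.eval x) =
          2 * HH N * ip (fun x => e.eval x) (fun x => e.eval x) := by
        have hc : ContDiff ℝ 1 fun x => (-1) * r.eval x := contDiff_const.mul (poly_cd r)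
        have hp : ContDiff ℝ 1 (fun x : ℝ => x ^ N) := contDiff_id.pow N
        have := BE_add hp hc (poly_cd e)
        rw [BE_smul, hBre, mul_zero, add_zero, ← hXe] at this
        rw [this, hee]
        exact BE_pow hTX N _ (poly_cd e) her
      have h1 : ip (fun x => q.eval x) (fun x => q.eval x) =
          ip (fun x => q'.eval x) (fun x => q'.eval x) +
            a ^ 2 * ip (fun x => e.eval x) (fun x => e.eval x) := by
        rw [hqf, ip_expand a q'.continuous e.continuous, hqe]
        ring
      have h2 : BE (fun x => q.eval x) (fun x => q.eval x) =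
          BE (fun x => q'.eval x) (fun x => q'.eval x) +
            a ^ 2 * BE (fun x => e.eval x) (fun x => e.eval x) := by
        rw [hqf, BE_expand a (poly_cd q') (poly_cd e), hBqe]
        ring
      rw [h1, h2, hBee]
      have h3 := HH_mono hN
      have h4 := ip_self_nonneg (fun x => e.eval x)
      have h5 : a ^ 2 * (2 * HH (K + 1) * ip (fun x => e.eval x) (fun x => e.eval x)) ≤
          a ^ 2 * (2 * HH N * ip (fun x => e.eval x) (fun x => e.eval x)) := by
        gcongr
      linarith


theorem exists_antideriv (r : Polynomial ℝ) : ∃ q : Polynomial ℝ,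
    Polynomial.derivative q = r ∧ q.eval 0 = 0 := by
  induction r using Polynomial.induction_on' with
  | add p q hp hq =>
    obtain ⟨p1, h1, h2⟩ := hp
    obtain ⟨q1, h3, h4⟩ := hq
    exact ⟨p1 + q1, by rw [Polynomial.derivative_add, h1, h3], by simp [h2, h4]⟩
  | monomial n a =>
    refine ⟨Polynomial.monomial (n + 1) (a / (n + 1)), ?_, by simp⟩
    rw [Polynomial.derivative_monomial]
    have : (n : ℝ) + 1 ≠ 0 := by positivity
    simp
    field_simp

/-- approximation of C1 functions by polynomials in C1 norm, keeping the moment conditions -/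
theorem exists_approx (K : ℕ) : ∃ C : ℝ, 0 ≤ C ∧ ∀ (w : ℝ → ℝ), ContDiff ℝ 1 w →
    (∀ k < K + 1, ip (fun x => x ^ k) w = 0) → ∀ ε : ℝ, 0 < ε → ∃ p : Polynomial ℝ,
      (∀ k < K + 1, ip (fun x => x ^ k) (fun x => p.eval x) = 0) ∧
      (∀ x ∈ Icc (-1 : ℝ) 1, |w x - p.eval x| ≤ C * ε) ∧
      (∀ x ∈ Icc (-1 : ℝ) 1, |deriv w x - (Polynomial.derivative p).eval x| ≤ C * ε) := by
  classical
  -- dual basis
  have hdual : ∀ i : Fin (K + 1), ∃ g : Polynomial ℝ, ∀ k : Fin (K + 1),
      ip (fun x => g.eval x) (fun x => x ^ (k : ℕ)) = if k = i then 1 else 0 := by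
    intro i
    obtain ⟨g, _, h⟩ := exists_moments (K + 1) fun k => if k = i then 1 else 0
    exact ⟨g, h⟩
  choose g hg using hdual
  have hbd : ∀ p : Polynomial ℝ, ∃ B : ℝ, 0 ≤ B ∧ ∀ x ∈ Icc (-1 : ℝ) 1, |p.eval x| ≤ B := by
    intro p
    obtain ⟨B, hB⟩ := isCompact_Icc.exists_bound_of_continuousOn
      (p.continuous.continuousOn (s := Icc (-1 : ℝ) 1))
    exact ⟨B, le_trans (norm_nonneg _) (hB 0 (by norm_num)), hB⟩
  choose B hB0 hB using hbd
  refine ⟨1 + 2 * ∑ i : Fin (K + 1), (B (g i) + B (Polynomial.derivative (g i))), ?_, ?_⟩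
  · have : 0 ≤ ∑ i : Fin (K + 1), (B (g i) + B (Polynomial.derivative (g i))) :=
      Finset.sum_nonneg fun i _ => add_nonneg (hB0 _) (hB0 _)
    linarith
  intro w hw ho ε hε
  obtain ⟨r, hr⟩ := exists_polynomial_near_of_continuousOn (-1) 1 (deriv w)
    (hw.continuous_deriv le_rfl).continuousOn ε hε
  obtain ⟨q0, hq0, hq00⟩ := exists_antideriv r
  set q : Polynomial ℝ := q0 + Polynomial.C (w 0) with hq
  have hqd : Polynomial.derivative q = r := by rw [hq]; simp [hq0]
  set d : ℝ → ℝ := fun x => q.eval x - w x with hd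
  have hwd : Differentiable ℝ w := hw.differentiable (by norm_num)
  have hdd : ∀ x, HasDerivAt d (r.eval x - deriv w x) x := by
    intro x
    have h1 := q.hasDerivAt x
    rw [hqd] at h1
    exact h1.sub (hwd x).hasDerivAt
  have hd0 : d 0 = 0 := by simp [hd, hq, hq00]
  have hdb : ∀ x ∈ Icc (-1 : ℝ) 1, |d x| ≤ ε := by
    intro x hx
    have h1 := (convex_Icc (-1 : ℝ) 1).norm_image_sub_le_of_norm_hasDerivWithin_le
      (f := d) (f' := fun x => r.eval x - deriv w x) (C := ε)
      (fun y _ => (hdd y).hasDerivWithinAt) (fun y hy => (hr y hy).le)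
      (x := 0) (y := x) (by norm_num) hx
    rw [hd0, sub_zero, sub_zero] at h1
    refine h1.trans ?_
    have : ‖x‖ ≤ 1 := by rw [Real.norm_eq_abs, abs_le]; exact ⟨hx.1, hx.2⟩
    nlinarith
  have hdc : Continuous d := q.continuous.sub hw.continuous
  set c : Fin (K + 1) → ℝ := fun i => ip d (fun x => x ^ (i : ℕ)) with hc
  have hcb : ∀ i, |c i| ≤ 2 * ε := by
    intro i
    have h1 := intervalIntegral.norm_integral_le_of_norm_le_const (a := -1) (b := 1) (C := ε)
      (f := fun x => d x * x ^ (i : ℕ)) (fun x hx => by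
        rw [uIoc_of_le (by norm_num)] at hx
        rw [norm_mul, norm_pow]
        have h2 : ‖x‖ ≤ 1 := by rw [Real.norm_eq_abs, abs_le]; exact ⟨hx.1.le, hx.2⟩
        have h3 : ‖x‖ ^ (i : ℕ) ≤ 1 := pow_le_one₀ (norm_nonneg _) h2
        have h4 : ‖d x‖ ≤ ε := hdb x ⟨hx.1.le, hx.2⟩
        calc ‖d x‖ * ‖x‖ ^ (i : ℕ) ≤ ε * 1 := by gcongr
          _ = ε := mul_one _)
    have h5 : |(1 : ℝ) - -1| = 2 := by norm_num
    rw [h5] at h1
    calc |c i| = ‖∫ x in (-1 : ℝ)..1, d x * x ^ (i : ℕ)‖ := rfl
      _ ≤ ε * 2 := h1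
      _ = 2 * ε := mul_comm _ _
  set π : Polynomial ℝ := ∑ i : Fin (K + 1), Polynomial.C (c i) * g i with hπ
  have hπe : (fun x => π.eval x) = fun x => ∑ i : Fin (K + 1), c i * (g i).eval x := by
    ext x
    rw [hπ, Polynomial.eval_finsetSum]
    simp
  have hπd : ∀ x, (Polynomial.derivative π).eval x =
      ∑ i : Fin (K + 1), c i * (Polynomial.derivative (g i)).eval x := by
    intro x
    rw [hπ, Polynomial.derivative_sum, Polynomial.eval_finsetSum]
    simp
  have hπb : ∀ x ∈ Icc (-1 : ℝ) 1, |π.eval x| ≤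
      2 * ε * ∑ i : Fin (K + 1), (B (g i) + B (Polynomial.derivative (g i))) := by
    intro x hx
    have := congrFun hπe x
    rw [this, Finset.mul_sum]
    refine (Finset.abs_sum_le_sum_abs _ _).trans (Finset.sum_le_sum fun i _ => ?_)
    rw [abs_mul]
    have h1 := hB (g i) x hx
    have h2 := hB0 (Polynomial.derivative (g i))
    have h3 := hB0 (g i)
    calc |c i| * |(g i).eval x| ≤ 2 * ε * B (g i) := by
          gcongr
          exact hcb i
      _ ≤ _ := by nlinarith
  have hπdb : ∀ x ∈ Icc (-1 : ℝ) 1, |(Polynomial.derivative π).eval x| ≤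
      2 * ε * ∑ i : Fin (K + 1), (B (g i) + B (Polynomial.derivative (g i))) := by
    intro x hx
    rw [hπd x, Finset.mul_sum]
    refine (Finset.abs_sum_le_sum_abs _ _).trans (Finset.sum_le_sum fun i _ => ?_)
    rw [abs_mul]
    have h1 := hB (Polynomial.derivative (g i)) x hx
    have h2 := hB0 (Polynomial.derivative (g i))
    have h3 := hB0 (g i)
    calc |c i| * |(Polynomial.derivative (g i)).eval x| ≤
          2 * ε * B (Polynomial.derivative (g i)) := by
          gcongr
          exact hcb i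
      _ ≤ _ := by nlinarith
  refine ⟨q - π, ?_, ?_, ?_⟩
  · intro k hk
    have h1 : (fun x => (q - π).eval x) = fun x => (w x + d x) - π.eval x := by
      ext x
      simp [hd]
    have hwdc : Continuous fun x => w x + d x := hw.continuous.add hdc
    rw [ip_comm, h1, ip_sub hwdc π.continuous (continuous_pow k),
      ip_add hw.continuous hdc (continuous_pow k), ip_comm w, ho k hk, hπe,
      ip_sum Finset.univ c (fun i x => (g i).eval x) (fun i => (g i).continuous)
        (continuous_pow k)]
    have h2 : ∀ i : Fin (K + 1), ip (fun x => (g i).eval x) (fun x => x ^ k) =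
        if (⟨k, hk⟩ : Fin (K + 1)) = i then 1 else 0 := fun i => hg i ⟨k, hk⟩
    simp only [h2]
    rw [Finset.sum_eq_single ⟨k, hk⟩]
    · simp [hc]
    · intro b _ hb
      rw [if_neg (Ne.symm hb), mul_zero]
    · simp
  · intro x hx
    have h1 := hdb x hx
    have h2 := hπb x hx
    have h3 : w x - (q - π).eval x = -(d x) + π.eval x := by
      simp [hd]
      ring
    rw [h3]
    calc |-(d x) + π.eval x| ≤ |-(d x)| + |π.eval x| := abs_add_le _ _
      _ = |d x| + |π.eval x| := by rw [abs_neg]
      _ ≤ _ := by nlinarith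
  · intro x hx
    have h1 := hr x hx
    have h2 := hπdb x hx
    have h3 : deriv w x - (Polynomial.derivative (q - π)).eval x =
        -(r.eval x - deriv w x) + (Polynomial.derivative π).eval x := by
      rw [Polynomial.derivative_sub, hqd]
      simp
      ring
    rw [h3]
    calc |-(r.eval x - deriv w x) + (Polynomial.derivative π).eval x| ≤
          |-(r.eval x - deriv w x)| + |(Polynomial.derivative π).eval x| := abs_add_le _ _
      _ = |r.eval x - deriv w x| + |(Polynomial.derivative π).eval x| := by rw [abs_neg]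
      _ ≤ _ := by nlinarith


theorem ip_young {f g : ℝ → ℝ} (hf : Continuous f) (hg : Continuous g) {t : ℝ} (ht : 0 < t) :
    ip (fun x => f x + g x) (fun x => f x + g x) ≤ (1 + t) * ip f f + (1 + 1 / t) * ip g g := by
  have h1 := ip_expand 1 hf hg
  have h2 := ip_expand (-(1 / t)) hf hg
  have h3 := ip_self_nonneg (fun x => f x + -(1 / t) * g x)
  rw [h2] at h3
  simp only [one_mul] at h1
  rw [h1]
  have h4 : t * (ip f f + 2 * -(1 / t) * ip f g + (-(1 / t)) ^ 2 * ip g g) =
      t * ip f f - 2 * ip f g + 1 / t * ip g g := by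
    field_simp
    ring
  have h5 := mul_nonneg ht.le h3
  rw [h4] at h5
  linarith

theorem BE_young {f g : ℝ → ℝ} (hf : ContDiff ℝ 1 f) (hg : ContDiff ℝ 1 g) {t : ℝ} (ht : 0 < t) :
    BE (fun x => f x + g x) (fun x => f x + g x) ≤ (1 + t) * BE f f + (1 + 1 / t) * BE g g := by
  have h1 := BE_expand 1 hf hg
  have h2 := BE_expand (-(1 / t)) hf hg
  have h3 := BE_self_nonneg (fun x => f x + -(1 / t) * g x)
  rw [h2] at h3
  simp only [one_mul] at h1
  rw [h1]
  have h4 : t * (BE f f + 2 * -(1 / t) * BE f g + (-(1 / t)) ^ 2 * BE g g) =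
      t * BE f f - 2 * BE f g + 1 / t * BE g g := by
    field_simp
    ring
  have h5 := mul_nonneg ht.le h3
  rw [h4] at h5
  linarith

theorem ip_small {d : ℝ → ℝ} {η : ℝ} (hη : 0 ≤ η) (hd : ∀ x ∈ Icc (-1 : ℝ) 1, |d x| ≤ η) :
    ip d d ≤ 2 * η ^ 2 := by
  have h1 := intervalIntegral.norm_integral_le_of_norm_le_const (a := -1) (b := 1) (C := η ^ 2)
    (f := fun x => d x * d x) (fun x hx => by
      rw [uIoc_of_le (by norm_num)] at hx
      have h4 : ‖d x‖ ≤ η := hd x ⟨hx.1.le, hx.2⟩
      rw [norm_mul]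
      nlinarith [norm_nonneg (d x)])
  have h5 : |(1 : ℝ) - -1| = 2 := by norm_num
  rw [h5] at h1
  calc ip d d ≤ ‖∫ x in (-1 : ℝ)..1, d x * d x‖ := le_abs_self _
    _ ≤ η ^ 2 * 2 := h1
    _ = _ := mul_comm _ _

theorem BE_small {d : ℝ → ℝ} {η : ℝ} (hη : 0 ≤ η) (hdd : Differentiable ℝ d)
    (hd : ∀ x ∈ Icc (-1 : ℝ) 1, |deriv d x| ≤ η) : BE d d ≤ 8 * η ^ 2 := by
  have hL : ∀ x ∈ Icc (-1 : ℝ) 1, ∀ y ∈ Icc (-1 : ℝ) 1, |d y - d x| ≤ η * |y - x| := by
    intro x hx y hy
    exact (convex_Icc (-1 : ℝ) 1).norm_image_sub_le_of_norm_hasDerivWithin_le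
      (f := d) (f' := deriv d) (C := η)
      (fun y _ => (hdd y).hasDerivAt.hasDerivWithinAt) (fun y hy => hd y hy) hx hy
  have hin : ∀ x ∈ Icc (-1 : ℝ) 1, ‖∫ y in x..1, ker d d x y‖ ≤ 4 * η ^ 2 := by
    intro x hx
    have h1 := intervalIntegral.norm_integral_le_of_norm_le_const (a := x) (b := 1)
      (C := 2 * η ^ 2) (f := fun y => ker d d x y) (fun y hy => by
        rw [uIoc_of_le hx.2] at hy
        have hy' : y ∈ Icc (-1 : ℝ) 1 := ⟨by linarith [hx.1, hy.1], hy.2⟩
        have h2 := hL x hx y hy'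
        have h3 : 0 < y - x := sub_pos.mpr hy.1
        rw [abs_of_pos h3] at h2
        unfold ker
        rw [Real.norm_eq_abs, abs_div, abs_mul, abs_of_pos h3, div_le_iff₀ h3]
        have h4 : y - x ≤ 2 := by linarith [hx.1, hy.2]
        calc |d y - d x| * |d y - d x| ≤ (η * (y - x)) * (η * (y - x)) := by gcongr
          _ = η ^ 2 * (y - x) * (y - x) := by ring
          _ ≤ η ^ 2 * 2 * (y - x) := by gcongr
          _ = _ := by ring)
    have h5 : |1 - x| ≤ 2 := by
      rw [abs_le]
      constructor <;> linarith [hx.1, hx.2]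
    calc ‖∫ y in x..1, ker d d x y‖ ≤ 2 * η ^ 2 * |1 - x| := h1
      _ ≤ 2 * η ^ 2 * 2 := by gcongr
      _ = _ := by ring
  have h1 := intervalIntegral.norm_integral_le_of_norm_le_const (a := -1) (b := 1)
    (C := 4 * η ^ 2) (f := fun x => ∫ y in x..1, ker d d x y) (fun x hx => by
      rw [uIoc_of_le (by norm_num)] at hx
      exact hin x ⟨hx.1.le, hx.2⟩)
  have h5 : |(1 : ℝ) - -1| = 2 := by norm_num
  rw [h5] at h1
  calc BE d d ≤ ‖∫ x in (-1 : ℝ)..1, ∫ y in x..1, ker d d x y‖ := le_abs_self _
    _ ≤ 4 * η ^ 2 * 2 := h1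
    _ = _ := by ring

/-- Tuck's identity: lower bound of the logarithmic energy on the orthogonal complement of the
polynomials of degree at most `K` -/
theorem tk : S_TX → S_TK := by
  intro hTX K w hw hok
  have ho : ∀ k < K + 1, ip (fun x => x ^ k) w = 0 := by
    intro k hk
    rw [ip_comm]
    exact hok k (Nat.lt_succ_iff.mp hk)
  obtain ⟨C, hC, happ⟩ := exists_approx K
  have key : ∀ t : ℝ, 0 < t → 2 * HH (K + 1) * ip w w ≤ (1 + t) ^ 2 * BE w w := by
    intro t ht
    have hlim : Tendsto (fun ε : ℝ => (1 + t) ^ 2 * BE w w +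
        ((1 + t) * (1 + 1 / t) * 8 + (1 + 1 / t) * (2 * HH (K + 1)) * 2) * (C * ε) ^ 2)
        (𝓝[>] 0) (𝓝 ((1 + t) ^ 2 * BE w w)) := by
      have hc : Continuous (fun ε : ℝ => (1 + t) ^ 2 * BE w w +
        ((1 + t) * (1 + 1 / t) * 8 + (1 + 1 / t) * (2 * HH (K + 1)) * 2) * (C * ε) ^ 2) := by
        fun_prop
      have h := (hc.tendsto 0).mono_left (nhdsWithin_le_nhds (s := Ioi (0 : ℝ)))
      simpa using h
    refine ge_of_tendsto hlim ?_
    filter_upwards [self_mem_nhdsWithin] with ε hε
    have hε' : 0 < ε := hε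
    obtain ⟨p, hp1, hp2, hp3⟩ := happ w hw ho ε hε'
    set d : ℝ → ℝ := fun x => w x + (-1) * p.eval x with hd
    have hpc : ContDiff ℝ 1 fun x => (-1) * p.eval x := contDiff_const.mul (poly_cd p)
    have hdc : ContDiff ℝ 1 d := hw.add hpc
    have hdsm : ∀ x ∈ Icc (-1 : ℝ) 1, |d x| ≤ C * ε := by
      intro x hx
      have : d x = w x - p.eval x := by simp [hd]; ring
      rw [this]
      exact hp2 x hx
    have hddiff : Differentiable ℝ d := hdc.differentiable (by norm_num)
    have hdd : ∀ x ∈ Icc (-1 : ℝ) 1, |deriv d x| ≤ C * ε := by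
      intro x hx
      have h1 : HasDerivAt d (deriv w x + (-1) * (Polynomial.derivative p).eval x) x :=
        ((hw.differentiable (by norm_num)) x).hasDerivAt.add ((p.hasDerivAt x).const_mul (-1))
      rw [h1.deriv]
      have h2 : deriv w x + (-1) * (Polynomial.derivative p).eval x =
          deriv w x - (Polynomial.derivative p).eval x := by ring
      rw [h2]
      exact hp3 x hx
    have hη : 0 ≤ C * ε := mul_nonneg hC hε'.le
    have e1 := ip_small hη hdsm
    have e2 := BE_small hη hddiff hdd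
    have e3 := ip_young p.continuous hdc.continuous ht
    have hsum : (fun x => p.eval x + d x) = w := by
      ext x
      simp [hd]
    rw [hsum] at e3
    have hmc : ContDiff ℝ 1 fun x => (-1) * d x := contDiff_const.mul hdc
    have e4 := BE_young hw hmc ht
    have hsum2 : (fun x => w x + (-1) * d x) = fun x => p.eval x := by
      ext x
      simp [hd]
    rw [hsum2] at e4
    have e5 : BE (fun x => (-1) * d x) (fun x => (-1) * d x) = BE d d := by
      rw [BE_smul, BE_comm, BE_smul]
      ring
    rw [e5] at e4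
    have e6 := poly_bound hTX K (p.natDegree + 1) p
      (lt_of_le_of_lt Polynomial.degree_le_natDegree (by exact_mod_cast Nat.lt_succ_self _)) hp1
    have hH := HH_nonneg (K + 1)
    have ht1 : 0 < 1 / t := by positivity
    have s1 : 2 * HH (K + 1) * ip w w ≤ 2 * HH (K + 1) * ((1 + t) *
        ip (fun x => p.eval x) (fun x => p.eval x) + (1 + 1 / t) * ip d d) := by gcongr
    have s2 : (1 + t) * (2 * HH (K + 1) * ip (fun x => p.eval x) (fun x => p.eval x)) ≤
        (1 + t) * BE (fun x => p.eval x) (fun x => p.eval x) := by gcongr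
    have s3 : (1 + t) * BE (fun x => p.eval x) (fun x => p.eval x) ≤
        (1 + t) * ((1 + t) * BE w w + (1 + 1 / t) * BE d d) := by gcongr
    have s4 : (1 + t) * (1 + 1 / t) * BE d d ≤ (1 + t) * (1 + 1 / t) * (8 * (C * ε) ^ 2) := by
      gcongr
    have s5 : (1 + 1 / t) * (2 * HH (K + 1)) * ip d d ≤
        (1 + 1 / t) * (2 * HH (K + 1)) * (2 * (C * ε) ^ 2) := by gcongr
    nlinarith
  have hfin : 2 * HH (K + 1) * ip w w ≤ BE w w := by
    have hlim : Tendsto (fun t : ℝ => (1 + t) ^ 2 * BE w w) (𝓝[>] 0) (𝓝 (BE w w)) := by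
      have hc : Continuous (fun t : ℝ => (1 + t) ^ 2 * BE w w) := by fun_prop
      have h := (hc.tendsto 0).mono_left (nhdsWithin_le_nhds (s := Ioi (0 : ℝ)))
      simpa using h
    refine ge_of_tendsto hlim ?_
    filter_upwards [self_mem_nhdsWithin] with t ht
    exact key t ht
  rw [EE_eq]
  have h1 : ∫ x in (-1 : ℝ)..1, w x ^ 2 = ip w w := by
    unfold ip
    simp only [sq]
  rw [h1]
  have h2 : (∑ i ∈ Finset.range (K + 1), (1 : ℝ) / (i + 1)) = HH (K + 1) := rfl
  rw [h2]
  linarith

end Pool.Agent.W449.WP
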